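import Pool.Agent.W337.WL.Fix
import Pool.Agent.W933.WL.Phi

set_option autoImplicit false

open MeasureTheory Set Filter Topology
open scoped ENNReal NNReal

namespace Pool.Agent.W172.WL

open Pool.Agent.W337.WL

theorem phi2 : S_PHI2 := by
  intro b α N hb _ h1
  obtain ⟨Ψ, h, h2⟩ := Pool.Agent.W933.WL.phi_norm b α N hb h1
  let Ψ2 : Om → LS := fun ω => LS.mk (Ψ ω).1 (Ψ ω).2
  have hc : Continuous Ψ2 := by
    refine continuous_iff_continuousAt.mpr fun ω => ?_
    exact tendsto_iff_norm_sub_tendsto_zero.mpr (h ω)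
  exact ⟨Ψ2, hc, fun ω x => h2 ω x⟩

end Pool.Agent.W172.WL
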