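import Pool.Agent.W172.WL.Defs

set_option autoImplicit false

/-!
# Project WL: exact statements of the parts (helper172, problem MP_22f354_an)
-/

open MeasureTheory Set
open scoped ENNReal NNReal

namespace Pool.Agent.W172.WL

/-! ## deterministic part -/

/-- HOL: the Weierstrass function of a Lipschitz `g` is `α`-Hölder. -/
def S_HOL : Prop := ∀ (b : ℕ) (α : ℝ), 2 ≤ b → 0 < α → α < 1 → ∀ g : ℝ → ℝ, LipPer g → Hol α (W b α g)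

/-- UP: almost every level set of an `α`-Hölder function has dimension at most `1 - α`. -/
def S_UP : Prop := ∀ α : ℝ, 0 < α → α < 1 → ∀ f : ℝ → ℝ, Hol α f →
  ∀ᵐ y : ℝ, dimH {x : ℝ | x ∈ Icc (0:ℝ) 1 ∧ f x = y} ≤ ENNReal.ofReal (1 - α)

/-- POS: Lebesgue measure on the range is absolutely continuous with respect to the occupation measure. -/
def S_POS : Prop := ∀ (b : ℕ) (α : ℝ), 2 ≤ b → 0 < α → α < 1 → ∀ f : ℝ → ℝ, Hol α f → UAC b α f →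
  ∀ E : Set ℝ, MeasurableSet E → volume {x : ℝ | x ∈ Ico (0:ℝ) 1 ∧ f x ∈ E} = 0 →
    volume (E ∩ f '' Icc (0:ℝ) 1) = 0

/-- GEO: a mass distribution principle for finite covers by `b`-adic intervals. -/
def S_GEO : Prop := ∀ (b : ℕ) (s c : ℝ) (N : ℕ) (Z : Set ℝ), 2 ≤ b → 0 ≤ s → 0 < c → IsCompact Z →
  Z ⊆ Icc (0:ℝ) 1 →
  (∀ T : Finset (ℕ × ℕ), (∀ t ∈ T, N ≤ t.1 ∧ t.2 < b ^ t.1) →
    (∃ U : Set ℝ, IsOpen U ∧ Z ⊆ U ∧ ∀ x ∈ U ∩ Icc (0:ℝ) 1, ∃ t ∈ T,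
      x ∈ Icc ((t.2 : ℝ) / (b : ℝ) ^ t.1) (((t.2 : ℝ) + 1) / (b : ℝ) ^ t.1)) →
    c ≤ ∑ t ∈ T, (b : ℝ) ^ (-(s * t.1))) →
  ENNReal.ofReal s ≤ dimH Z

/-- LOWM: the measure theoretic part of the lower bound. -/
def S_LOWM : Prop := ∀ (b : ℕ) (α s : ℝ), 2 ≤ b → 0 < α → α < 1 → 0 ≤ s → s < 1 - α →
  ∀ f : ℝ → ℝ, Hol α f → UAC b α f →
  ∀ᵐ y ∂((volume.restrict (Ico (0:ℝ) 1)).map f), ∃ (N : ℕ) (c : ℝ), 0 < c ∧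
    ∀ T : Finset (ℕ × ℕ), (∀ t ∈ T, N ≤ t.1 ∧ t.2 < b ^ t.1) →
    (∃ U : Set ℝ, IsOpen U ∧ {x : ℝ | x ∈ Icc (0:ℝ) 1 ∧ f x = y} ⊆ U ∧ ∀ x ∈ U ∩ Icc (0:ℝ) 1, ∃ t ∈ T,
      x ∈ Icc ((t.2 : ℝ) / (b : ℝ) ^ t.1) (((t.2 : ℝ) + 1) / (b : ℝ) ^ t.1)) →
    c ≤ ∑ t ∈ T, (b : ℝ) ^ (-(s * t.1))

/-- DET: the deterministic theorem. -/
def S_DET : Prop := ∀ (b : ℕ) (α : ℝ), 2 ≤ b → 0 < α → α < 1 → ∀ f : ℝ → ℝ, Hol α f → UAC b α f →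
  ∀ᵐ y : ℝ, y ∈ f '' Icc (0:ℝ) 1 →
    dimH {x : ℝ | x ∈ Icc (0:ℝ) 1 ∧ f x = y} = ENNReal.ofReal (1 - α)

/-- FL2: a finite measure with square integrable Fourier transform. -/
def S_FL2 : Prop := ∀ (ν : Measure ℝ) [IsFiniteMeasure ν] (M : ℝ≥0),
  (∫⁻ ξ : ℝ, ‖∫ x, Complex.exp (Complex.I * ((ξ * x : ℝ) : ℂ)) ∂ν‖ₑ ^ 2) ≤ M →
  ∀ A : Set ℝ, MeasurableSet A → ν A ≤ (M : ℝ≥0∞) ^ (1 / 2 : ℝ) * (volume A) ^ (1 / 2 : ℝ)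

/-- bounded square integrals of all the Fourier transforms -/
def L2B (b : ℕ) (α : ℝ) (g : ℝ → ℝ) : Prop :=
  ∃ M : ℝ≥0, ∀ n z : ℕ, z < b ^ n → (∫⁻ ξ : ℝ, ‖nuHat b α g n z ξ‖ₑ ^ 2) ≤ M

/-- UNIF -/
def S_UNIF : Prop := ∀ (b : ℕ) (α : ℝ), 2 ≤ b → 0 < α → α < 1 → ∀ g : ℝ → ℝ, LipPer g →
  L2B b α g → UAC b α (W b α g)

/-- COMP -/
def S_COMP : Prop := ∀ (b : ℕ) (α : ℝ), 2 ≤ b → 0 < α → α < 1 → ∀ g : ℝ → ℝ, LipPer g →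
  G1 b α g → L2B b α g

/-! ## the random function -/

/-- PHI: the random function is a continuous map into `Lip(S¹)`. -/
def S_PHI : Prop := ∀ (b : ℕ) (α : ℝ) (N : ℕ), 2 ≤ b → 0 < α → α < 1 →
  ∃ Ψ : Om → LipS1, Continuous Ψ ∧ ∀ (ω : Om) (x : ℝ), (Ψ ω : ℝ → ℝ) x = Phi b α N ω x

/-- CONTF: joint continuity. -/
def S_CONTF : Prop := ∀ (b : ℕ) (α : ℝ) (N n z : ℕ), 2 ≤ b → 0 < α → α < 1 → ∀ g : ℝ → ℝ, LipPer g →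
  Continuous (fun q : Om × ℝ => F b α (fun x => g x + Phi b α N q.1 x) n z q.2)

/-- LIN: `F` as a linear function of the random variables. -/
def S_LIN : Prop := ∀ (b : ℕ) (α : ℝ) (N n z : ℕ), 2 ≤ b → 0 < α → α < 1 → ∀ g : ℝ → ℝ, LipPer g →
  ∀ u : ℝ, Summable (fun j : Idx => |cf b α N n z u j|) ∧
    ∀ ω : Om, F b α (fun x => g x + Phi b α N ω x) n z u =
      F b α g n z u + ∑' j : Idx, cf b α N n z u j * (ω j : ℝ)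

/-- CHAR: characteristic function of an infinite weighted sum of independent uniform variables. -/
def S_CHAR : Prop := ∀ s : Idx → ℝ, Summable (fun j => |s j|) → ∀ (J : Finset Idx) (τ : ℝ), 0 < τ →
  (∀ j ∈ J, τ ≤ |s j|) →
  ‖∫ ω : Om, Complex.exp (Complex.I * ((∑' j : Idx, s j * (ω j : ℝ) : ℝ) : ℂ)) ∂Pr‖ ≤ (2 / τ) ^ J.card

/-- MOM0: the `2p`-th moment of a Fourier transform of an occupation measure. -/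
def S_MOM0 : Prop := ∀ (H : Om → ℝ → ℝ), Measurable (Function.uncurry H) → ∀ p : ℕ,
  ∫ ω : Om, ‖∫ u in Icc (0:ℝ) 1, Complex.exp (Complex.I * ((H ω u : ℝ) : ℂ))‖ ^ (2 * p) ∂Pr ≤
    ∫ u in {u : Fin (2 * p) → ℝ | ∀ a, u a ∈ Icc (0:ℝ) 1},
      ‖∫ ω : Om, Complex.exp (Complex.I * ((∑ a, sg p a * H ω (u a) : ℝ) : ℂ)) ∂Pr‖

/-- DIGEQ: points in the same `b`-adic cell of level `q` have the same first `q` digits. -/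
def S_DIGEQ : Prop := ∀ (b : ℕ), 2 ≤ b → ∀ (y y' : ℝ), 0 ≤ y → 0 ≤ y' → ∀ q : ℕ,
  ⌊(b : ℝ) ^ q * Int.fract y⌋₊ = ⌊(b : ℝ) ^ q * Int.fract y'⌋₊ → ∀ t : ℕ, 1 ≤ t → t ≤ q →
    ⌊(b : ℝ) ^ t * y⌋₊ % b = ⌊(b : ℝ) ^ t * y'⌋₊ % b

/-- DIGLAM: the tent function is at least `b^(-2)` unless the next two digits are `00` or `(b-1)(b-1)`. -/
def S_DIGLAM : Prop := ∀ (b : ℕ), 2 ≤ b → ∀ (y : ℝ), 0 ≤ y → ∀ q : ℕ,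
  ¬ (⌊(b : ℝ) ^ (q + 1) * y⌋₊ % b = 0 ∧ ⌊(b : ℝ) ^ (q + 2) * y⌋₊ % b = 0) →
  ¬ (⌊(b : ℝ) ^ (q + 1) * y⌋₊ % b = b - 1 ∧ ⌊(b : ℝ) ^ (q + 2) * y⌋₊ % b = b - 1) →
  1 / (b : ℝ) ^ 2 ≤ Lam ((b : ℝ) ^ q * Int.fract y - ⌊(b : ℝ) ^ q * Int.fract y⌋₊)

/-- PART: if all coefficients are small then the configuration is structured. -/
def S_PART : Prop := ∀ (b p c : ℕ) (α : ℝ), 2 ≤ b → 0 < α → α < 1 → 1 ≤ p → 1 ≤ c →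
  (p : ℝ) * (b : ℝ) ^ (-(α * ((c : ℝ) + 1))) / (1 - (b : ℝ) ^ (-α)) ≤ 1 / (b : ℝ) ^ 2 / 2 →
  ∀ (L n z : ℕ), z < b ^ n → ∀ ξ : ℝ, (b : ℝ) ^ (th α * L) ≤ |ξ| →
  ∀ u : Fin (2 * p) → ℝ, (∀ a, u a ∈ Ico (0:ℝ) 1) →
  (∀ l i : ℕ, l ≤ L → i < b ^ l →
    |ξ| * (wt b α l * |∑ a, sg p a * Bc b α n z l i (u a)|) < (b : ℝ) ^ (et α * L - 2) / 2) →
  (∀ a, StrAt b n z c n L u a) ∧ (∀ a, StrAt b n z c (n + L) (l1 α L) u a)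

/-- GRAPH: counting solutions of equality constraints. -/
def S_GRAPH : Prop := ∀ (V : Type) [Fintype V] [DecidableEq V] (b : ℕ) (S : Finset V) (f : V → V)
  (c : V → Option (Fin b)), (∀ s ∈ S, c s = none → f s ≠ s) →
  ∀ A : Finset (V → Fin b),
    (∀ x ∈ A, ∀ s ∈ S, (c s = none → x s = x (f s)) ∧ (∀ d, c s = some d → x s = d)) →
    A.card ^ 2 * b ^ S.card ≤ b ^ (2 * Fintype.card V)

/-- BOX: volume of a set of points with prescribed first `N` digits. -/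
def S_BOX : Prop := ∀ (b P N : ℕ), 2 ≤ b → ∀ A : Finset (Fin P × Fin N → Fin b),
  volume {u : Fin P → ℝ | (∀ a, u a ∈ Ico (0:ℝ) 1) ∧ ∃ x ∈ A, ∀ (a : Fin P) (s : Fin N),
    ⌊(b : ℝ) ^ ((s : ℕ) + 1) * u a⌋₊ % b = (x (a, s) : ℕ)} ≤
    (A.card : ℝ≥0∞) * ENNReal.ofReal ((b : ℝ) ^ (-((P : ℝ) * N)))

/-- a fixed structure at one window -/
def StrW (b n z k l : ℕ) {P : ℕ} (u : Fin P → ℝ) (a : Fin P) (q e : ℕ) (a' : Fin P) (k' : ℕ) : Prop :=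
  (∀ t, 1 ≤ t → t ≤ q → Ez b n z (u a') (k' + t) = Ez b n z (u a) (k + t)) ∧
    (∀ t, q + 2 ≤ t → t ≤ l + 2 → Ez b n z (u a) (k + t) = e)

/-- VOLS: volume of the configurations with a fixed structure. -/
def S_VOLS : Prop := ∀ (b p L l n z : ℕ), 2 ≤ b → l ≤ L → z < b ^ n →
  ∀ (q1 e1 k1 q2 e2 k2 : Fin (2 * p) → ℕ) (a1 a2 : Fin (2 * p) → Fin (2 * p)),
  (∀ a, q1 a ≤ L) → (∀ a, (a1 a, k1 a) ≠ (a, n)) → (∀ a, q2 a ≤ l) → (∀ a, (a2 a, k2 a) ≠ (a, n + L)) →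
  volume {u : Fin (2 * p) → ℝ | (∀ a, u a ∈ Ico (0:ℝ) 1) ∧
    ∀ a, StrW b n z n L u a (q1 a) (e1 a) (a1 a) (k1 a) ∧
      StrW b n z (n + L) l u a (q2 a) (e2 a) (a2 a) (k2 a)} ≤
    ENNReal.ofReal ((b : ℝ) ^ (-((p : ℝ) * (L + l))))

/-- VOL: volume of the structured configurations. -/
def S_VOL : Prop := ∀ (b p c L l n z : ℕ), 2 ≤ b → l ≤ L → z < b ^ n →
  volume {u : Fin (2 * p) → ℝ | (∀ a, u a ∈ Ico (0:ℝ) 1) ∧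
    (∀ a, StrAt b n z c n L u a) ∧ (∀ a, StrAt b n z c (n + L) l u a)} ≤
    ENNReal.ofReal ((((L + 1) * b * (2 * p) * (n + L + c + 1) : ℕ) : ℝ) ^ (4 * p) *
      (b : ℝ) ^ (-((p : ℝ) * (L + l))))

/-- MOM: the moment bound. -/
def S_MOM : Prop := ∀ (b : ℕ) (α : ℝ), 2 ≤ b → 0 < α → α < 1 → ∀ p : ℕ, 1 ≤ p →
  ∃ (N : ℕ) (C : ℝ), ∀ g : ℝ → ℝ, LipPer g → ∀ L n z : ℕ, n ≤ mL α L → z < b ^ n →
    ∀ ξ : ℝ, (b : ℝ) ^ (th α * L) ≤ |ξ| →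
      ∫ ω : Om, ‖nuHat b α (fun x => g x + Phi b α N ω x) n z ξ‖ ^ (2 * p) ∂Pr ≤
        C * ((L : ℝ) + 1) ^ (8 * p) * (b : ℝ) ^ (-((p : ℝ) * (2 - α) * L))

/-- PROB: almost surely `g + Φ` is good. -/
def S_PROB : Prop := ∀ (b : ℕ) (α : ℝ), 2 ≤ b → 0 < α → α < 1 →
  ∃ N : ℕ, ∀ g : ℝ → ℝ, LipPer g → ∀ᵐ ω ∂Pr, G1 b α (fun x => g x + Phi b α N ω x)

/-- BOREL: the good functions form a Borel set. -/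
def S_BOREL : Prop := ∀ (b : ℕ) (α : ℝ), 2 ≤ b → 0 < α → α < 1 →
  MeasurableSet[borel LipS1] {g : LipS1 | G1 b α (g : ℝ → ℝ)}

/-- MAIN -/
def S_MAIN : Prop := ∀ (b : ℕ) (α : ℝ), 2 ≤ b → 0 < α → α < 1 →
  IsShy {g : LipS1 | ¬ ∀ᵐ y : ℝ, y ∈ range (W b α (g : ℝ → ℝ)) →
    dimH {x : ℝ | x ∈ Ico (0:ℝ) 1 ∧ W b α (g : ℝ → ℝ) x = y} = ENNReal.ofReal (1 - α)}

end Pool.Agent.W172.WL
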