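import Pool.Agent.W172.WL.Stm
import Pool.Agent.W172.WL.Phi2
import Pool.Agent.W250.WL.Hol
import Pool.Agent.W658.WL.Up
import Pool.Agent.W882.WL.Pos
import Pool.Agent.W653.WL.Geo
import Pool.Agent.W397.WL.Lowm
import Pool.Agent.W138.WL.Det
import Pool.Agent.W509.WL.Fl2
import Pool.Agent.W989.WL.Unif
import Pool.Agent.W509.WL.Comp
import Pool.Agent.W933.WL.Phi
import Pool.Agent.W701.WL.Contf
import Pool.Agent.W509.WL.Char
import Pool.Agent.W509.WL.Mom0
import Pool.Agent.W308.WL.Dig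
import Pool.Agent.W648.WL.Part
import Pool.Agent.W554.WL.Graph
import Pool.Agent.W803.WL.Box
import Pool.Agent.W989.WL.Vols
import Pool.Agent.W247.WL.Vol
import Pool.Agent.W641.WL.Mom
import Pool.Agent.W310.WL.Prob
import Pool.Agent.W337.WL.Main

set_option autoImplicit false

namespace Pool.Agent.W172.WL

theorem s_mom (hlin : S_LIN) : S_MOM := by
  have hdigeq : S_DIGEQ := Pool.Agent.W308.WL.Dig.digeq
  have hdiglam : S_DIGLAM := Pool.Agent.W308.WL.Dig.diglam
  have hpart : S_PART := Pool.Agent.W648.WL.part hdigeq hdiglam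
  have hvols : S_VOLS := Pool.Agent.W989.WL.Vols.vols Pool.Agent.W554.WL.graph Pool.Agent.W803.WL.box
  have hvol : S_VOL := Pool.Agent.W247.WL.vol hvols
  exact Pool.Agent.W641.WL.mom Pool.Agent.W509.WL.char hlin Pool.Agent.W509.WL.mom0 hpart hvol
    Pool.Agent.W701.WL.contf

theorem s_det : S_DET :=
  Pool.Agent.W138.WL.det Pool.Agent.W658.WL.up Pool.Agent.W882.WL.Pos.pos Pool.Agent.W653.WL.geo
    Pool.Agent.W397.WL.lowm

theorem s_main (hlin : S_LIN) (hborel : Pool.Agent.W337.WL.S_BOREL2) : Pool.Agent.W337.WL.S_MAIN2 :=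
  Pool.Agent.W337.WL.main Pool.Agent.W250.WLHol.hol s_det
    (Pool.Agent.W989.WL.Unif.unif Pool.Agent.W509.WL.fl2 Pool.Agent.W250.WLHol.hol)
    Pool.Agent.W509.WL.comp phi2
    (Pool.Agent.W310.WL.prob (s_mom hlin) Pool.Agent.W701.WL.contf) hborel

end Pool.Agent.W172.WL
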