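import Mathlib

set_option autoImplicit false

/-!
# Level sets of prevalent Weierstrass functions: definitions (project WL, helper172, problem MP_22f354_an)

Functions on the circle are written as `1`-periodic functions on `ℝ`.
-/

open MeasureTheory Set
open scoped ENNReal NNReal

namespace Pool.Agent.W172.WL

/-- `g` is a Lipschitz function on the circle `ℝ/ℤ`, written as a `1`-periodic function on `ℝ`. -/
def LipPer (g : ℝ → ℝ) : Prop := Function.Periodic g 1 ∧ ∃ K : ℝ≥0, LipschitzWith K g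

theorem LipPer.continuous {g : ℝ → ℝ} (h : LipPer g) : Continuous g := by
  obtain ⟨_, K, hK⟩ := h
  exact hK.continuous

theorem LipPer.bdd {g : ℝ → ℝ} (h : LipPer g) : ∃ M : ℝ, ∀ x, |g x| ≤ M := by
  have hc := h.continuous
  obtain ⟨M, hM⟩ := (isCompact_Icc (a := (0:ℝ)) (b := 1)).exists_bound_of_continuousOn hc.continuousOn
  refine ⟨M, fun x => ?_⟩
  have h1 : g x = g (Int.fract x) := by
    have := h.1.sub_int_mul_eq ⌊x⌋ (x := x)
    rw [mul_one] at this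
    rw [← this]; rfl
  rw [h1]
  exact hM _ ⟨Int.fract_nonneg x, (Int.fract_lt_one x).le⟩

theorem LipPer.lip {g : ℝ → ℝ} (h : LipPer g) :
    ∃ K : ℝ, 0 ≤ K ∧ ∀ x y, |g x - g y| ≤ K * |x - y| := by
  obtain ⟨_, K, hK⟩ := h
  refine ⟨K, K.2, fun x y => ?_⟩
  have := hK.dist_le_mul x y
  rwa [Real.dist_eq, Real.dist_eq] at this

/-- The space `Lip(S¹)` of Lipschitz functions on the circle. -/
def LipS1 : AddSubgroup (ℝ → ℝ) where
  carrier := {g | LipPer g}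
  add_mem' := by
    rintro f g ⟨hf, K, hK⟩ ⟨hg, K', hK'⟩
    exact ⟨fun x => by simp [hf x, hg x], K + K', hK.add hK'⟩
  zero_mem' := ⟨fun x => by simp, 0, LipschitzWith.const 0⟩
  neg_mem' := by
    rintro f ⟨hf, K, hK⟩
    exact ⟨fun x => by simp [hf x], K, hK.neg⟩

/-- supremum of `|g|` -/
noncomputable def supN (g : ℝ → ℝ) : ℝ := ⨆ x : ℝ, |g x|

/-- best Lipschitz constant of `g` -/
noncomputable def lipN (g : ℝ → ℝ) : ℝ := ⨆ p : ℝ × ℝ, |g p.1 - g p.2| / |p.1 - p.2|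

theorem bddAbove_sup {g : ℝ → ℝ} (h : LipPer g) : BddAbove (range fun x : ℝ => |g x|) := by
  obtain ⟨M, hM⟩ := h.bdd
  exact ⟨M, by rintro _ ⟨x, rfl⟩; exact hM x⟩

theorem bddAbove_lip {g : ℝ → ℝ} (h : LipPer g) :
    BddAbove (range fun p : ℝ × ℝ => |g p.1 - g p.2| / |p.1 - p.2|) := by
  obtain ⟨K, hK0, hK⟩ := h.lip
  refine ⟨K, ?_⟩
  rintro _ ⟨p, rfl⟩
  show |g p.1 - g p.2| / |p.1 - p.2| ≤ K
  rcases eq_or_ne p.1 p.2 with h0 | h0
  · simp [h0, hK0]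
  · rw [div_le_iff₀ (abs_pos.mpr (sub_ne_zero.mpr h0))]
    exact hK _ _

theorem le_supN {g : ℝ → ℝ} (h : LipPer g) (x : ℝ) : |g x| ≤ supN g := le_ciSup (bddAbove_sup h) x

theorem supN_nonneg (g : ℝ → ℝ) : 0 ≤ supN g := Real.iSup_nonneg fun _ => abs_nonneg _

theorem lipN_nonneg (g : ℝ → ℝ) : 0 ≤ lipN g :=
  Real.iSup_nonneg fun _ => div_nonneg (abs_nonneg _) (abs_nonneg _)

theorem le_lipN {g : ℝ → ℝ} (h : LipPer g) (x y : ℝ) : |g x - g y| ≤ lipN g * |x - y| := by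
  rcases eq_or_ne x y with h0 | h0
  · simp [h0]
  · rw [← div_le_iff₀ (abs_pos.mpr (sub_ne_zero.mpr h0))]
    exact le_ciSup (bddAbove_lip h) (x, y)

/-- The norm `‖g‖ = sup |g| + sup_{x ≠ y} |g x - g y| / |x - y|` of `Lip(S¹)`. -/
noncomputable def lipGroupNorm : AddGroupNorm LipS1 where
  toFun g := supN g + lipN g
  map_zero' := by simp [supN, lipN]
  add_le' := by
    intro f g
    have hf : LipPer (f : ℝ → ℝ) := f.2
    have hg : LipPer (g : ℝ → ℝ) := g.2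
    have h1 : supN ((f + g : LipS1) : ℝ → ℝ) ≤ supN f + supN g := by
      refine ciSup_le fun x => ?_
      show |(f : ℝ → ℝ) x + (g : ℝ → ℝ) x| ≤ _
      exact (abs_add_le _ _).trans (add_le_add (le_supN hf x) (le_supN hg x))
    have h2 : lipN ((f + g : LipS1) : ℝ → ℝ) ≤ lipN f + lipN g := by
      refine ciSup_le fun p => ?_
      rcases eq_or_ne p.1 p.2 with h0 | h0
      · simp only [h0, sub_self, abs_zero, div_zero]
        exact add_nonneg (lipN_nonneg _) (lipN_nonneg _)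
      · rw [div_le_iff₀ (abs_pos.mpr (sub_ne_zero.mpr h0))]
        show |((f : ℝ → ℝ) p.1 + (g : ℝ → ℝ) p.1) - ((f : ℝ → ℝ) p.2 + (g : ℝ → ℝ) p.2)| ≤ _
        have e : ((f : ℝ → ℝ) p.1 + (g : ℝ → ℝ) p.1) - ((f : ℝ → ℝ) p.2 + (g : ℝ → ℝ) p.2) =
            ((f : ℝ → ℝ) p.1 - (f : ℝ → ℝ) p.2) + ((g : ℝ → ℝ) p.1 - (g : ℝ → ℝ) p.2) := by ring
        rw [e, add_mul]
        exact (abs_add_le _ _).trans (add_le_add (le_lipN hf _ _) (le_lipN hg _ _))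
    show supN ((f + g : LipS1) : ℝ → ℝ) + lipN ((f + g : LipS1) : ℝ → ℝ) ≤
      (supN f + lipN f) + (supN g + lipN g)
    linarith
  neg' := by
    intro f
    have h1 : supN ((-f : LipS1) : ℝ → ℝ) = supN f := by
      unfold supN
      congr 1
      funext x
      show |-(f : ℝ → ℝ) x| = _
      rw [abs_neg]
    have h2 : lipN ((-f : LipS1) : ℝ → ℝ) = lipN f := by
      unfold lipN
      congr 1
      funext p
      show |-(f : ℝ → ℝ) p.1 - -(f : ℝ → ℝ) p.2| / _ = _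
      rw [neg_sub_neg, abs_sub_comm]
    show supN ((-f : LipS1) : ℝ → ℝ) + lipN ((-f : LipS1) : ℝ → ℝ) = _
    rw [h1, h2]
  eq_zero_of_map_eq_zero' := by
    intro f hf
    have h0 : supN (f : ℝ → ℝ) + lipN (f : ℝ → ℝ) = 0 := hf
    have h1 : supN (f : ℝ → ℝ) = 0 := by
      have a := supN_nonneg (f : ℝ → ℝ)
      have b := lipN_nonneg (f : ℝ → ℝ)
      linarith
    apply Subtype.ext
    funext x
    have := le_supN (g := (f : ℝ → ℝ)) f.2 x
    rw [h1] at this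
    exact abs_nonpos_iff.mp this

noncomputable instance : NormedAddCommGroup LipS1 := lipGroupNorm.toNormedAddCommGroup

theorem norm_def (g : LipS1) : ‖g‖ = supN (g : ℝ → ℝ) + lipN (g : ℝ → ℝ) := rfl

/-- A set `A` in a space with addition and topology is *shy* (Christensen; Hunt, Sauer, Yorke): there are a
Borel measure `μ` and a Borel set `B ⊇ A` with `0 < μ K < ∞` for some compact `K` and `μ (x + B) = 0`
for every `x`. -/
def IsShy {X : Type*} [TopologicalSpace X] [Add X] (A : Set X) : Prop :=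
  ∃ (μ : @Measure X (borel X)) (B : Set X), A ⊆ B ∧ MeasurableSet[borel X] B ∧
    (∃ K : Set X, IsCompact K ∧ 0 < μ K ∧ μ K < ⊤) ∧ ∀ x : X, μ ((fun z => x + z) '' B) = 0

/-- The Weierstrass function `W(x) = ∑ b^(-αk) g(b^k x)`. -/
noncomputable def W (b : ℕ) (α : ℝ) (g : ℝ → ℝ) (x : ℝ) : ℝ :=
  ∑' k : ℕ, (b : ℝ) ^ (-(α * k)) * g ((b : ℝ) ^ k * x)

/-- `F_{n,z}(u) = b^(αn) W((z+u)/b^n)`: the function `W` on the `b`-adic interval `[z/b^n, (z+1)/b^n]`,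
rescaled. -/
noncomputable def F (b : ℕ) (α : ℝ) (g : ℝ → ℝ) (n z : ℕ) (u : ℝ) : ℝ :=
  (b : ℝ) ^ (α * n) * W b α g ((z + u) / (b : ℝ) ^ n)

/-- Fourier transform of the occupation measure of `F_{n,z}` on `[0,1]`. -/
noncomputable def nuHat (b : ℕ) (α : ℝ) (g : ℝ → ℝ) (n z : ℕ) (ξ : ℝ) : ℂ :=
  ∫ u in Icc (0 : ℝ) 1, Complex.exp (Complex.I * ((ξ * F b α g n z u : ℝ) : ℂ))

/-- `θ = 1 + (1-α)/2` -/
noncomputable def th (α : ℝ) : ℝ := 1 + (1 - α) / 2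

/-- `η = (1-α)/4` -/
noncomputable def et (α : ℝ) : ℝ := (1 - α) / 4

/-- word lengths considered at the frequencies of block `L` -/
noncomputable def mL (α : ℝ) (L : ℕ) : ℕ := ⌈(th α + 1) * (L + 1) / (1 - α)⌉₊

/-- length of the second window -/
noncomputable def l1 (α : ℝ) (L : ℕ) : ℕ := ⌊(1 - α) * L⌋₊

/-- frequency block `b^(θL) ≤ |ξ| ≤ b^(θ(L+1))` -/
def Blk (b : ℕ) (α : ℝ) (L : ℕ) : Set ℝ :=
  {ξ | (b : ℝ) ^ (th α * L) ≤ |ξ| ∧ |ξ| ≤ (b : ℝ) ^ (th α * (L + 1))}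

/-- the good property of `g` -/
def G1 (b : ℕ) (α : ℝ) (g : ℝ → ℝ) : Prop :=
  ∃ M : ℝ, ∀ L n z : ℕ, n ≤ mL α L → z < b ^ n →
    ∫ ξ in Blk b α L, ‖nuHat b α g n z ξ‖ ^ 2 ≤ M * (b : ℝ) ^ (-(et α * L))

/-- uniform absolute continuity of the occupation measures on all `b`-adic intervals -/
def UAC (b : ℕ) (α : ℝ) (f : ℝ → ℝ) : Prop :=
  ∃ M : ℝ≥0, ∀ n z : ℕ, z < b ^ n → ∀ A : Set ℝ, MeasurableSet A →
    volume {x : ℝ | x ∈ Ico ((z : ℝ) / (b : ℝ) ^ n) (((z : ℝ) + 1) / (b : ℝ) ^ n) ∧ f x ∈ A} ≤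
      (M : ℝ≥0∞) * ENNReal.ofReal ((b : ℝ) ^ (-((1 - α / 2) * n))) * (volume A) ^ (1 / 2 : ℝ)

/-- `α`-Hölder continuity on the line -/
def Hol (α : ℝ) (f : ℝ → ℝ) : Prop := ∃ C : ℝ, ∀ x y : ℝ, |f x - f y| ≤ C * |x - y| ^ α

/-! ## the random Lipschitz function -/

/-- index set of the random variables: level, cell, copy -/
abbrev Idx : Type := ℕ × ℕ × ℕ

/-- probability space -/
abbrev Om : Type := Idx → unitInterval

/-- product of the uniform measures on `[0,1]` -/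
noncomputable def Pr : Measure Om := Measure.infinitePi (fun _ : Idx => (volume : Measure unitInterval))

instance : IsProbabilityMeasure Pr := by unfold Pr; infer_instance

/-- tent function, zero outside `[0,1]` -/
noncomputable def Lam (x : ℝ) : ℝ := max 0 (min x (1 - x))

/-- weight `b^(-(1+η) l)` of level `l` -/
noncomputable def wt (b : ℕ) (α : ℝ) (l : ℕ) : ℝ := (b : ℝ) ^ (-((1 + et α) * l))

/-- The random function `Φ(x) = ∑_l b^(-(1+η)l) ∑_{i < b^l} (∑_{r<N} ω(l,i,r)) Λ(b^l {x} - i)`. -/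
noncomputable def Phi (b : ℕ) (α : ℝ) (N : ℕ) (ω : Om) (x : ℝ) : ℝ :=
  ∑' l : ℕ, wt b α l * ∑ i ∈ Finset.range (b ^ l),
    (∑ r ∈ Finset.range N, (ω (l, i, r) : ℝ)) * Lam ((b : ℝ) ^ l * Int.fract x - i)

/-- Coefficient: `B_{l,i}(u) = ∑_k b^(α(n-k)) Λ(b^l {b^k (z+u)/b^n} - i)`. -/
noncomputable def Bc (b : ℕ) (α : ℝ) (n z l i : ℕ) (u : ℝ) : ℝ :=
  ∑' k : ℕ, (b : ℝ) ^ (α * ((n : ℝ) - k)) *
    Lam ((b : ℝ) ^ l * Int.fract ((b : ℝ) ^ k * ((z + u) / (b : ℝ) ^ n)) - i)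

/-- coefficient of `ω j` in `F` -/
noncomputable def cf (b : ℕ) (α : ℝ) (N n z : ℕ) (u : ℝ) (j : Idx) : ℝ :=
  if j.2.1 < b ^ j.1 ∧ j.2.2 < N then wt b α j.1 * Bc b α n z j.1 j.2.1 u else 0

/-- signs: the first `p` points have sign `+1`, the others `-1` -/
def sg (p : ℕ) (a : Fin (2 * p)) : ℝ := if a.val < p then 1 else -1

/-- The digits: `E(j) = ⌊b^j (z+u)/b^n⌋ mod b`, for `j ≤ n` digits of `z`, for `j > n` digits of `u`. -/
noncomputable def Ez (b n z : ℕ) (u : ℝ) (j : ℕ) : ℕ := ⌊(b : ℝ) ^ j * ((z + u) / (b : ℝ) ^ n)⌋₊ % b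

/-- Structure of the window of length `l` starting after position `k` of the point `a`: for some `q ≤ l`
the digits `k+1..k+q` repeat a different occurrence `(a', k')`, and the digits `k+q+2..k+l+2` are
constant. -/
def StrAt (b n z c k l : ℕ) {P : ℕ} (u : Fin P → ℝ) (a : Fin P) : Prop :=
  ∃ q ≤ l, ∃ e < b, ∃ (a' : Fin P) (k' : ℕ), (a', k') ≠ (a, k) ∧ k' ≤ k + c ∧
    (∀ t, 1 ≤ t → t ≤ q → Ez b n z (u a') (k' + t) = Ez b n z (u a) (k + t)) ∧
    (∀ t, q + 2 ≤ t → t ≤ l + 2 → Ez b n z (u a) (k + t) = e)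

end Pool.Agent.W172.WL
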